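import Pool.Agent.H.MP_457b0e_al.Main

set_option autoImplicit false

namespace Pool.Agent.Results.MP_457b0e_al.Closure

open Polynomial
open scoped TensorProduct

/-- The image of `A` in `K ⊗ A`. -/
noncomputable def img (D A : Type) [CommRing D] [Ring A] [Algebra D A] :
    Subring (FractionRing D ⊗[D] A) :=
  (Algebra.TensorProduct.includeRight : A →ₐ[D] FractionRing D ⊗[D] A).toRingHom.range

/-- Integer-valued polynomials on `A` with coefficients in the fraction field. -/
noncomputable def IntK (D A : Type) [CommRing D] [Ring A] [Algebra D A] :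
    Subring (FractionRing D)[X] :=
  ⨅ a : A, (img D A).comap (aeval ((1 : FractionRing D) ⊗ₜ[D] a)).toRingHom

theorem result (D A : Type) [CommRing D] [IsDomain D] [IsIntegrallyClosed D] [Ring A]
    [Algebra D A] [Module.Finite D A] [Module.IsTorsionFree D A]
    (hinj : Function.Injective (algebraMap D A)) (φ : RatFunc (FractionRing D)) :
    IsIntegral (IntK D A) φ ↔
      ∃ f : (FractionRing D)[X], algebraMap _ (RatFunc (FractionRing D)) f = φ ∧
        ∀ a : A, IsIntegral D (aeval ((1 : FractionRing D) ⊗ₜ[D] a) f) := by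
  have hi := IsFractionRing.injective (FractionRing D)[X] (RatFunc (FractionRing D))
  let ι : A →ₐ[D] FractionRing D ⊗[D] A := Algebra.TensorProduct.includeRight
  have hR : ∀ g, g ∈ IntK D A ↔ ∀ a, aeval (ι a) g ∈ ι.range := fun g => Subring.mem_iInf
  constructor
  · intro h
    obtain ⟨f, rfl⟩ := IsIntegrallyClosed.algebraMap_eq_of_integral
      (h.tower_top (A := (FractionRing D)[X]))
    exact ⟨f, rfl, H.MP_457b0e_al.integral_of_monic ι f
      (IntK D A) (fun g => (hR g).1) ((isIntegral_algebraMap_iff hi).1 h)⟩
  · rintro ⟨f, rfl, hf⟩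
    rw [isIntegral_algebraMap_iff hi]
    have := IsLocalization.flat (FractionRing D) (nonZeroDivisors D)
    exact H.MP_457b0e_al.monic_of_integral
      (Algebra.TensorProduct.includeLeft_injective (S := D) hinj) ι f _ (fun g => (hR g).2) hf

end Pool.Agent.Results.MP_457b0e_al.Closure
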